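import Pool.Agent.helper53.ORT.Spec

/-!
# Project ort, row NRX (helper84): values of `X ψ(X)`
-/

set_option autoImplicit false

namespace Pool.Agent.ORT

open Module Pool.Agent.GS

/-- the alternating product -/
theorem NRX_aux {F : Type} [Field F] (ψ : F ≃+* F) (s : F) (hs : s ≠ 0) : ∀ j : ℕ,
    (Even j → ∃ X : F, X * ψ X * (⇑ψ)^[j] s = s) ∧ (Odd j → ∃ X : F, X * ψ X = s * (⇑ψ)^[j] s) := by
  have hne : ∀ j : ℕ, (⇑ψ)^[j] s ≠ 0 := by
    intro j
    induction j with
    | zero => simpa using hs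
    | succ j ih =>
      rw [Function.iterate_succ_apply']
      exact (map_ne_zero ψ).2 ih
  intro j
  induction j with
  | zero =>
    refine ⟨fun _ => ⟨1, by simp⟩, fun h => ?_⟩
    exact absurd h (by decide)
  | succ j ih =>
    obtain ⟨h1, h2⟩ := ih
    refine ⟨fun h => ?_, fun h => ?_⟩
    · have hj : Odd j := by
        rcases Nat.even_or_odd j with hj | hj
        · exfalso
          exact (Nat.not_odd_iff_even.mpr h) (hj.add_one)
        · exact hj
      obtain ⟨X, hX⟩ := h2 hj
      refine ⟨X / (⇑ψ)^[j] s, ?_⟩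
      have e1 := hne j
      have e2 := hne (j + 1)
      rw [Function.iterate_succ_apply'] at e2 ⊢
      rw [map_div₀]
      field_simp
      rw [hX]
      ring
    · have hj : Even j := by
        rcases Nat.even_or_odd j with hj | hj
        · exact hj
        · exfalso
          exact (Nat.not_odd_iff_even.mpr (hj.add_one)) h
      obtain ⟨X, hX⟩ := h1 hj
      refine ⟨X * (⇑ψ)^[j] s, ?_⟩
      rw [Function.iterate_succ_apply', map_mul]
      linear_combination (ψ ((⇑ψ)^[j] s)) * hX

/-- row NRX -/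
theorem NRX (ds1 : GS.DS1_stmt) : NRX_stmt := by
  intro F _ _ ψ l hl hψ hψl
  refine ⟨fun hl2 w hw hψw => ?_, fun hl2 s hs => ?_⟩
  · subst hl2
    obtain ⟨lam, _, hlam⟩ := ds1 ψ 2 hl hψ hψl w⁻¹ (inv_ne_zero hw) (by rw [map_inv₀, hψw])
    refine ⟨lam, ?_⟩
    rw [Finset.prod_range_succ, Finset.prod_range_one] at hlam
    simp only [Function.iterate_zero, id_eq, Function.iterate_one] at hlam
    field_simp at hlam
    exact hlam
  · have hodd : Odd l := hl.odd_of_ne_two hl2
    obtain ⟨X, hX⟩ := (NRX_aux ψ s hs l).2 hodd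
    exact ⟨X, by rw [hX, hψl s]; ring⟩

end Pool.Agent.ORT
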